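import Pool.Agent.helper31.NU.PDefs

set_option autoImplicit false
set_option linter.unusedSectionVars false

/-! Module P1: first consequences of `Diff`. -/

open MeasureTheory Filter Topology Set
open scoped ContDiff

noncomputable section

namespace Pool.Agent.helper31.NU

variable {M : Type*} [TopologicalSpace M] [CompactSpace M] [MeasurableSpace M] [BorelSpace M]
  {σ : Measure M} [IsProbabilityMeasure σ]
  {S : Set (M → ℝ)} {L : (M → ℝ) → M → ℝ} {Γ : (M → ℝ) → (M → ℝ) → M → ℝ} {n : ℝ}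

theorem Diff.integrable (D : Diff σ S L Γ n) {u : M → ℝ} (hu : u ∈ S) : Integrable u σ :=
  (D.cont u hu).integrable_of_hasCompactSupport (HasCompactSupport.of_compactSpace u)

theorem Diff.smul (D : Diff σ S L Γ n) {u : M → ℝ} (hu : u ∈ S) (c : ℝ) : c • u ∈ S :=
  D.mul _ (D.const c) _ hu

theorem Diff.sub (D : Diff σ S L Γ n) {u v : M → ℝ} (hu : u ∈ S) (hv : v ∈ S) : u - v ∈ S := by
  have h := D.add _ hu _ (D.smul hv (-1))
  have e : u + (-1 : ℝ) • v = u - v := by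
    rw [neg_one_smul, sub_eq_add_neg]
  rwa [e] at h

theorem Diff.Lsmul (D : Diff σ S L Γ n) {u : M → ℝ} (hu : u ∈ S) (c : ℝ) (x : M) :
    L (c • u) x = c * L u x := by
  have h := D.Lmul _ (D.const c) _ hu x
  rw [D.Lconst, D.Gconst c u hu, mul_zero, mul_zero, add_zero, add_zero] at h
  exact h

theorem Diff.Lsub (D : Diff σ S L Γ n) {u v : M → ℝ} (hu : u ∈ S) (hv : v ∈ S) (x : M) :
    L (u - v) x = L u x - L v x := by
  have e : u + (-1 : ℝ) • v = u - v := by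
    rw [neg_one_smul, sub_eq_add_neg]
  rw [← e, D.Ladd _ hu _ (D.smul hv (-1)), D.Lsmul hv]
  ring

theorem Diff.Gsmul (D : Diff σ S L Γ n) {u v : M → ℝ} (hu : u ∈ S) (hv : v ∈ S) (c : ℝ) (x : M) :
    Γ (c • u) v x = c * Γ u v x := by
  have h := D.Gmul _ (D.const c) _ hu _ hv x
  rw [D.Gconst c v hv, mul_zero, add_zero] at h
  exact h

theorem Diff.Gsmul_right (D : Diff σ S L Γ n) {u v : M → ℝ} (hu : u ∈ S) (hv : v ∈ S) (c : ℝ)
    (x : M) : Γ u (c • v) x = c * Γ u v x := by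
  rw [D.Gsymm _ hu _ (D.smul hv c), D.Gsmul hv hu, D.Gsymm _ hv _ hu]

theorem Diff.Gadd_right (D : Diff σ S L Γ n) {u v w : M → ℝ} (hu : u ∈ S) (hv : v ∈ S)
    (hw : w ∈ S) (x : M) : Γ w (u + v) x = Γ w u x + Γ w v x := by
  rw [D.Gsymm _ hw _ (D.add _ hu _ hv), D.Gadd _ hu _ hv _ hw, D.Gsymm _ hu _ hw,
    D.Gsymm _ hv _ hw]

theorem Diff.Gsub (D : Diff σ S L Γ n) {u v w : M → ℝ} (hu : u ∈ S) (hv : v ∈ S)
    (hw : w ∈ S) (x : M) : Γ (u - v) w x = Γ u w x - Γ v w x := by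
  have e : u + (-1 : ℝ) • v = u - v := by
    rw [neg_one_smul, sub_eq_add_neg]
  rw [← e, D.Gadd _ hu _ (D.smul hv (-1)) _ hw, D.Gsmul hv hw]
  ring

theorem Diff.int (D : Diff σ S L Γ n) (u : M → ℝ) (hu : u ∈ S) : ∫ x, L u x ∂σ = 0 := by
  have h := D.green _ (D.const 1) u hu
  simp only [one_mul, D.Gconst 1 u hu, integral_zero, neg_zero] at h
  exact h

/-- integration by parts (the field `green`) -/
theorem Diff.ibp (D : Diff σ S L Γ n) {u v : M → ℝ} (hu : u ∈ S) (hv : v ∈ S) :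
    ∫ x, u x * L v x ∂σ = -∫ x, Γ u v x ∂σ := D.green u hu v hv

theorem Diff.symm (D : Diff σ S L Γ n) {u v : M → ℝ} (hu : u ∈ S) (hv : v ∈ S) :
    ∫ x, u x * L v x ∂σ = ∫ x, v x * L u x ∂σ := by
  rw [D.ibp hu hv, D.ibp hv hu]
  congr 1
  exact integral_congr_ae (Eventually.of_forall fun x => D.Gsymm u hu v hv x)

theorem Diff.inv_mem (D : Diff σ S L Γ n) {u : M → ℝ} (hu : u ∈ S) (h0 : ∀ x, 0 < u x) :
    (fun x => (u x)⁻¹) ∈ S :=
  (D.comp u hu (fun t => t⁻¹) (Ioi 0) isOpen_Ioi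
    (contDiffOn_id.inv fun t ht => (ne_of_gt ht)) h0).1

private theorem contDiffOn_log' : ContDiffOn ℝ ∞ Real.log (Ioi 0) :=
  contDiffOn_id.log fun t ht => (ne_of_gt ht)

theorem Diff.log_mem (D : Diff σ S L Γ n) {u : M → ℝ} (hu : u ∈ S) (h0 : ∀ x, 0 < u x) :
    (fun x => Real.log (u x)) ∈ S :=
  (D.comp u hu Real.log (Ioi 0) isOpen_Ioi contDiffOn_log' h0).1

theorem Diff.Glog (D : Diff σ S L Γ n) {u v : M → ℝ} (hu : u ∈ S) (h0 : ∀ x, 0 < u x)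
    (hv : v ∈ S) (x : M) : Γ (fun x => Real.log (u x)) v x = Γ u v x / u x := by
  rw [(D.comp u hu Real.log (Ioi 0) isOpen_Ioi contDiffOn_log' h0).2.1 v hv x, Real.deriv_log]
  ring

theorem Diff.Llog (D : Diff σ S L Γ n) {u : M → ℝ} (hu : u ∈ S) (h0 : ∀ x, 0 < u x) (x : M) :
    L (fun x => Real.log (u x)) x = L u x / u x - Γ u u x / u x ^ 2 := by
  rw [(D.comp u hu Real.log (Ioi 0) isOpen_Ioi contDiffOn_log' h0).2.2 x]
  have h1 : deriv Real.log = fun t => t⁻¹ := funext Real.deriv_log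
  rw [h1, deriv_inv]
  beta_reduce
  have := (h0 x).ne'
  field_simp
  ring

theorem Diff.sqrt_mem (D : Diff σ S L Γ n) {u : M → ℝ} (hu : u ∈ S) (h0 : ∀ x, 0 < u x) :
    (fun x => √(u x)) ∈ S :=
  (D.comp u hu (fun t => √t) (Ioi 0) isOpen_Ioi
    (contDiffOn_id.sqrt fun t ht => (ne_of_gt ht)) h0).1

/-- `Γ(√(f² + ε)) ≤ Γ(f)` -/
theorem Diff.Gsqrt (D : Diff σ S L Γ n) {f : M → ℝ} (hf : f ∈ S) {ε : ℝ} (hε : 0 < ε) :
    (fun x => √(f x ^ 2 + ε)) ∈ S ∧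
    ∀ x, Γ (fun x => √(f x ^ 2 + ε)) (fun x => √(f x ^ 2 + ε)) x ≤ Γ f f x := by
  have hψ : ContDiffOn ℝ ∞ (fun t : ℝ => √(t ^ 2 + ε)) univ := by
    refine ContDiffOn.sqrt ?_ fun t _ => by positivity
    fun_prop
  obtain ⟨h1, h2, -⟩ := D.comp f hf (fun t => √(t ^ 2 + ε)) univ isOpen_univ hψ fun _ => mem_univ _
  refine ⟨h1, fun x => ?_⟩
  have h3 := h2 _ h1 x
  have h4 := h2 f hf x
  rw [h3, D.Gsymm f hf _ h1, h4, ← mul_assoc]
  have hd : deriv (fun t => √(t ^ 2 + ε)) (f x) = f x / √(f x ^ 2 + ε) := by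
    have h5 : HasDerivAt (fun t : ℝ => t ^ 2 + ε) (2 * f x) (f x) := by
      simpa using ((hasDerivAt_id (f x)).pow 2).add_const ε
    have h6 := h5.sqrt (by positivity)
    rw [h6.deriv]
    field_simp
  have hs : 0 < √(f x ^ 2 + ε) := Real.sqrt_pos.2 (by positivity)
  have hle : f x / √(f x ^ 2 + ε) * (f x / √(f x ^ 2 + ε)) ≤ 1 := by
    rw [div_mul_div_comm, Real.mul_self_sqrt (by positivity), div_le_one (by positivity)]
    nlinarith
  rw [hd]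
  calc _ ≤ 1 * Γ f f x := mul_le_mul_of_nonneg_right hle (D.Gnonneg f hf x)
    _ = Γ f f x := one_mul _

/-- `Γ(u, v)² ≤ Γ(u) Γ(v)` -/
theorem Diff.Gcs (D : Diff σ S L Γ n) {u v : M → ℝ} (hu : u ∈ S) (hv : v ∈ S) (x : M) :
    Γ u v x ^ 2 ≤ Γ u u x * Γ v v x := by
  have key : ∀ t : ℝ, 0 ≤ Γ v v x * (t * t) + (2 * Γ u v x) * t + Γ u u x := by
    intro t
    have h := D.Gnonneg _ (D.add _ hu _ (D.smul hv t)) x
    rw [D.Gadd _ hu _ (D.smul hv t) _ (D.add _ hu _ (D.smul hv t)),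
      D.Gadd_right hu (D.smul hv t) hu, D.Gsmul hv (D.add _ hu _ (D.smul hv t)),
      D.Gadd_right hu (D.smul hv t) hv, D.Gsmul_right hu hv, D.Gsmul_right hv hv,
      D.Gsymm _ hv _ hu] at h
    linarith
  have h := discrim_le_zero key
  unfold discrim at h
  nlinarith

end Pool.Agent.helper31.NU
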