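import Pool.Agent.helper63.NU.Defs2

set_option autoImplicit false

/-!
# MP_737c0a_gt, part P: the sharp logarithmic Sobolev inequality on `ℂP^n`: definitions

* `Diff σ S L Γ n`: a symmetric diffusion operator with a curvature-dimension inequality (abstract);
* the homogeneous model of `ℂP^n`: functions on `ℂ^m ∖ 0` (`m = n + 1`), homogeneous of degree 0.
-/

open MeasureTheory Filter Topology Set
open scoped ContDiff ComplexOrder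

noncomputable section

namespace Pool.Agent.helper31.NU

open Pool.Agent.helper63.NU (E dz db lev)

/-- `L` is a diffusion operator with carré du champ `Γ` on the algebra `S` of 'smooth' functions,
symmetric for the measure `σ`, satisfying the curvature-dimension inequality
`L Γ(u) - 2 Γ(u, L u) ≥ Γ(u) + (L u)²/n`. -/
structure Diff {M : Type*} [TopologicalSpace M] [MeasurableSpace M] (σ : Measure M)
    (S : Set (M → ℝ)) (L : (M → ℝ) → M → ℝ) (Γ : (M → ℝ) → (M → ℝ) → M → ℝ) (n : ℝ) : Prop where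
  cont : ∀ u ∈ S, Continuous u
  const : ∀ c : ℝ, (fun _ => c) ∈ S
  add : ∀ u ∈ S, ∀ v ∈ S, u + v ∈ S
  mul : ∀ u ∈ S, ∀ v ∈ S, u * v ∈ S
  memL : ∀ u ∈ S, L u ∈ S
  memG : ∀ u ∈ S, ∀ v ∈ S, Γ u v ∈ S
  Lconst : ∀ (c : ℝ) (x : M), L (fun _ => c) x = 0
  Ladd : ∀ u ∈ S, ∀ v ∈ S, ∀ x, L (u + v) x = L u x + L v x
  Lmul : ∀ u ∈ S, ∀ v ∈ S, ∀ x, L (u * v) x = u x * L v x + v x * L u x + 2 * Γ u v x
  Gconst : ∀ c : ℝ, ∀ v ∈ S, ∀ x, Γ (fun _ => c) v x = 0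
  Gsymm : ∀ u ∈ S, ∀ v ∈ S, ∀ x, Γ u v x = Γ v u x
  Gadd : ∀ u ∈ S, ∀ v ∈ S, ∀ w ∈ S, ∀ x, Γ (u + v) w x = Γ u w x + Γ v w x
  Gmul : ∀ u ∈ S, ∀ v ∈ S, ∀ w ∈ S, ∀ x, Γ (u * v) w x = u x * Γ v w x + v x * Γ u w x
  Gnonneg : ∀ u ∈ S, ∀ x, 0 ≤ Γ u u x
  comp : ∀ u ∈ S, ∀ (ψ : ℝ → ℝ) (U : Set ℝ), IsOpen U → ContDiffOn ℝ ∞ ψ U → (∀ x, u x ∈ U) →
    (fun x => ψ (u x)) ∈ S ∧
    (∀ v ∈ S, ∀ x, Γ (fun x => ψ (u x)) v x = deriv ψ (u x) * Γ u v x) ∧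
    ∀ x, L (fun x => ψ (u x)) x = deriv ψ (u x) * L u x + deriv (deriv ψ) (u x) * Γ u u x
  green : ∀ u ∈ S, ∀ v ∈ S, ∫ x, u x * L v x ∂σ = -∫ x, Γ u v x ∂σ
  cd : ∀ u ∈ S, ∀ x, Γ u u x + (L u x) ^ 2 / n ≤ L (Γ u u) x - 2 * Γ u (L u) x
  min : ∀ u ∈ S, ∀ x, (∀ y, u x ≤ u y) → 0 ≤ L u x
  conn : ∀ u ∈ S, (∀ x, Γ u u x = 0) → ∀ x y, u x = u y

section Hom

variable {m : ℕ}

/-- `|z|²` -/
def rr (z : E m) : ℝ := ∑ j, ‖z j‖ ^ 2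

/-- the real function `F` as a complex function -/
abbrev cx (F : E m → ℝ) : E m → ℂ := fun z => ((F z : ℝ) : ℂ)

/-- `(|z|²/m) ∑_a ∂_a ∂̄_a F` -/
def LH (F : E m → ℝ) (z : E m) : ℝ := rr z / m * ∑ a, (lev F z a a).re

/-- `(|z|²/m) Re ∑_a ∂_a F ∂̄_a H` -/
def GH (F H : E m → ℝ) (z : E m) : ℝ := rr z / m * (∑ a, dz a (cx F) z * db a (cx H) z).re

/-- smooth functions on `ℂ^m ∖ 0`, homogeneous of degree `0` -/
structure SH (F : E m → ℝ) : Prop where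
  smooth : ContDiffOn ℝ ∞ F {0}ᶜ
  hom : ∀ (c : ℂ) (z : E m), c ≠ 0 → F (c • z) = F z

/-- `Re ⟨C z, z⟩ / |z|²` -/
def gC (C : Matrix (Fin m) (Fin m) ℂ) (z : E m) : ℝ :=
  (∑ a, ∑ b, (starRingEnd ℂ) (z a) * C a b * z b).re / rr z

end Hom

end Pool.Agent.helper31.NU
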