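import Pool.Agent.helper63.NU.CPDefs
import Pool.Agent.helper63.NU.Defs2

set_option autoImplicit false

/-! # MP_737c0a_gt, part P: further definitions -/

open MeasureTheory Filter Topology Set
open scoped ContDiff Manifold Matrix ENNReal ComplexOrder

noncomputable section

namespace Pool.Agent.helper63.NU

variable {n : ℕ} {M : Type*} [TopologicalSpace M] [ChartedSpace (E n) M]

/-- `Re ⟨∂̄u, ∂̄v⟩` for the metric `∂∂̄φ`, a function on `M` (`gr2 φ u u = gr φ u`) -/
def gr2 (φ : Fam n M ℝ) (u v : M → ℝ) (x : M) : ℝ :=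
  (cn (lev (φ (chartAt (E n) x)) (chartAt (E n) x x))
    (dbv (fun z => ((u ((chartAt (E n) x).symm z) : ℝ) : ℂ)) (chartAt (E n) x x))
    (dbv (fun z => ((v ((chartAt (E n) x).symm z) : ℝ) : ℂ)) (chartAt (E n) x x))).re

end Pool.Agent.helper63.NU
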