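import Pool.Agent.helper9.NU.P6
import Pool.Agent.helper83.NU.P7
import Pool.Agent.helper12.NU.P8
import Pool.Agent.helper68.NU.P9
import Pool.Agent.helper36.NU.P10
import Pool.Agent.helper59.NU.P12
import Pool.Agent.helper32.NU.P13
import Pool.Agent.helper6.NU.P14
import Pool.Agent.helper26.NU.P16
import Pool.Agent.helper51.NU.B3

set_option autoImplicit false

/-! Module P15: `ν(ℂP^n, g_FS) ≥ n log (n+1) - log n! - n`. -/

open MeasureTheory Filter Topology Set
open scoped ContDiff Manifold Matrix ENNReal ComplexOrder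

noncomputable section

namespace Pool.Agent.helper31.NU

open Pool.Agent.helper63.NU

variable {n : ℕ}

namespace P15

/-- smooth functions on `ℂP^n` -/
def SS (n : ℕ) : Set (CP n → ℝ) := {u | SH (lft u)}

/-- the Laplacian (up to a factor) -/
def LL (u : CP n → ℝ) (x : CP n) : ℝ := LH (lft u) x.rep

/-- the carré du champ -/
def GG (u v : CP n → ℝ) (x : CP n) : ℝ := GH (lft u) (lft v) x.rep

/-- the volume of `ℂP^n` -/
def V (n : ℕ) : ℝ := Real.pi ^ n / n.factorial

theorem V_pos (n : ℕ) : 0 < V n := by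
  unfold V
  have := Real.pi_pos
  positivity

/-- the normalised volume -/
def sg (n : ℕ) : Measure (CP n) := ENNReal.ofReal (V n)⁻¹ • dvFS n

theorem lft_add (u v : CP n → ℝ) : lft (u + v) = lft u + lft v := by
  funext z
  by_cases hz : z = 0
  · simp [lft, hz]
  · simp [lft, hz]

theorem lft_mul (u v : CP n → ℝ) : lft (u * v) = lft u * lft v := by
  funext z
  by_cases hz : z = 0
  · simp [lft, hz]
  · simp [lft, hz]

/-- the lift of a homogeneous function -/
theorem lft_rep {F : E (n + 1) → ℝ} (hF : SH F) {z : E (n + 1)} (hz : z ≠ 0) :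
    lft (fun x : CP n => F x.rep) z = F z := by
  rw [lft_mk _ z hz]
  obtain ⟨c, hc, h⟩ := CP.exists_rep z hz
  rw [h, hF.hom c z hc]

theorem SH_congr {F H : E (n + 1) → ℝ} (hF : SH F) (hH : ∀ (c : ℂ) z, c ≠ 0 → H (c • z) = H z)
    (h : ∀ z ≠ 0, H z = F z) : SH H :=
  ⟨hF.smooth.congr fun z hz => h z hz, hH⟩

theorem lft_hom (u : CP n → ℝ) (c : ℂ) (z : E (n + 1)) (hc : c ≠ 0) : lft u (c • z) = lft u z := by
  by_cases hz : z = 0
  · rw [hz, smul_zero]
  · have hcz : c • z ≠ 0 := smul_ne_zero hc hz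
    rw [lft_mk _ _ hcz, lft_mk _ _ hz]
    congr 1
    rw [CP.mk_eq_iff]
    exact ⟨c, hc, rfl⟩

theorem SH_lft_of {u : CP n → ℝ} {F : E (n + 1) → ℝ} (hF : SH F) (h : ∀ z ≠ 0, lft u z = F z) :
    SH (lft u) := SH_congr hF (lft_hom u) h

theorem SH_lft_rep {F : E (n + 1) → ℝ} (hF : SH F) : SH (lft fun x : CP n => F x.rep) :=
  SH_lft_of hF fun _ hz => lft_rep hF hz

theorem lft_const (c : ℝ) {z : E (n + 1)} (hz : z ≠ 0) : lft (fun _ : CP n => c) z = c :=
  lft_mk _ z hz

theorem lft_self (u : CP n → ℝ) (x : CP n) : lft u x.rep = u x := by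
  rw [lft_mk u x.rep x.rep_ne, CP.mk_rep]

theorem cont {u : CP n → ℝ} (hu : SH (lft u)) : Continuous u := by
  rw [CP.isQuotientMap_mk.continuous_iff]
  have h1 : ContinuousOn (lft u) {0}ᶜ := hu.smooth.continuousOn
  have h2 : (u ∘ fun v : {v : E (n + 1) // v ≠ 0} => CP.mk v.1 v.2)
      = fun v : {v : E (n + 1) // v ≠ 0} => lft u v.1 := by
    funext v
    exact (lft_mk u v.1 v.2).symm
  rw [h2]
  exact h1.comp_continuous continuous_subtype_val fun v => v.2

theorem lap_eq {u : CP n → ℝ} (hu : SH (lft u)) (x : CP n) : lap (wFS n) u x = LL u x := by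
  have h := lap_wFS hu x.rep x.rep_ne
  rwa [CP.mk_rep] at h

theorem gr2_eq {u v : CP n → ℝ} (hu : SH (lft u)) (hv : SH (lft v)) (x : CP n) :
    gr2 (wFS n) u v x = GG u v x := by
  have h := gr2_wFS hu hv x.rep x.rep_ne
  rwa [CP.mk_rep] at h

theorem grad2_eq {u : CP n → ℝ} (hu : SH (lft u)) (x : CP n) :
    grad2 (hFS n) u x = 4 * (n + 1) * GG u u x := by
  have h := grad2_hFS hu x.rep x.rep_ne
  rwa [CP.mk_rep] at h

theorem integral_sg (f : CP n → ℝ) : ∫ x, f x ∂(sg n) = (V n)⁻¹ * ∫ x, f x ∂(dvFS n) := by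
  unfold sg
  rw [integral_smul_measure, ENNReal.toReal_ofReal (inv_nonneg.2 (V_pos n).le), smul_eq_mul]

theorem diff (hn : 0 < n) : Diff (sg n) (SS n) LL GG (n : ℝ) where
  cont u hu := cont hu
  const c := SH_lft_of (SH.const c) fun _ hz => lft_const c hz
  add u hu v hv := by
    show SH (lft (u + v))
    rw [lft_add]
    exact hu.add hv
  mul u hu v hv := by
    show SH (lft (u * v))
    rw [lft_mul]
    exact hu.mul hv
  memL u hu := SH_lft_rep hu.memL
  memG u hu v hv := SH_lft_rep (hu.memG hv)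
  Lconst c x := by
    unfold LL
    rw [LH_congr (H := fun _ => c) (fun z hz => lft_const c hz) x.rep_ne, LH_const]
  Ladd u hu v hv x := by
    unfold LL
    rw [lft_add]
    exact LH_add hu hv x.rep_ne
  Lmul u hu v hv x := by
    unfold LL GG
    rw [lft_mul, LH_mul hu hv x.rep_ne, lft_self, lft_self]
  Gconst c v hv x := by
    unfold GG
    rw [GH_congr (F' := fun _ => c) (H' := lft v) (fun z hz => lft_const c hz) (fun _ _ => rfl)
      x.rep_ne, GH_const c hv]
  Gsymm u _ v _ x := GH_symm _ _ _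
  Gadd u hu v hv w hw x := by
    unfold GG
    rw [lft_add]
    exact GH_add hu hv hw x.rep_ne
  Gmul u hu v hv w hw x := by
    unfold GG
    rw [lft_mul, GH_mul hu hv hw x.rep_ne, lft_self, lft_self]
  Gnonneg u _ x := GH_nonneg _ _
  comp := by
    intro u hu ψ U hU hψ h
    have h' : ∀ z ≠ 0, lft u z ∈ U := fun z hz => by
      rw [lft_mk u z hz]; exact h _
    have hl : ∀ z ≠ 0, lft (fun x => ψ (u x)) z = ψ (lft u z) := fun z hz => by
      rw [lft_mk _ z hz, lft_mk _ z hz]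
    have hx : ∀ x : CP n, lft u x.rep = u x := lft_self u
    refine ⟨SH_lft_of (SH.comp hu hU hψ h') hl, fun v hv x => ?_, fun x => ?_⟩
    · unfold GG
      rw [GH_congr hl (fun _ _ => rfl) x.rep_ne, GH_comp hu hv hU hψ h' x.rep_ne, hx]
    · unfold LL GG
      rw [LH_congr hl x.rep_ne, LH_comp hu hU hψ h' x.rep_ne, hx]
  green u hu v hv := by
    rw [integral_sg, integral_sg, ← mul_neg]
    congr 1
    have h := green_ke isPos_wFS isDens_dvFS dl_wFS ((sm_iff u).2 hu) ((sm_iff v).2 hv)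
    simp only [lap_eq hv, gr2_eq hu hv] at h
    exact h
  cd u hu x := by
    have h := CD_hom (m := n + 1) (by omega) hu x.rep_ne
    have e1 : LL (GG u u) x = LH (GH (lft u) (lft u)) x.rep := by
      unfold LL
      exact LH_congr (fun z hz => lft_rep (hu.memG hu) hz) x.rep_ne
    have e2 : GG u (LL u) x = GH (lft u) (LH (lft u)) x.rep := by
      unfold GG
      exact GH_congr (fun _ _ => rfl) (fun z hz => lft_rep hu.memL hz) x.rep_ne
    rw [e1, e2]
    have e3 : (((n + 1 : ℕ) : ℝ) - 1) = n := by push_cast; ring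
    rw [e3] at h
    exact h
  min u hu x h := by
    refine LH_min hu x.rep_ne fun w hw => ?_
    rw [lft_self, lft_mk u w hw]
    exact h _
  conn u hu h x y := by
    have h1 : ∀ z ≠ 0, GH (lft u) (lft u) z = 0 := fun z hz => by
      rw [← lft_rep (hu.memG hu) hz, lft_mk _ z hz]
      exact h _
    have h2 := GH_conn (m := n + 1) (by omega) hu h1 x.rep_ne y.rep_ne
    rwa [lft_self, lft_self] at h2

/-! ### the generators -/

/-- the function `gC C` on `ℂP^n`, linear in `C` -/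
def gl (n : ℕ) : Matrix (Fin (n + 1)) (Fin (n + 1)) ℂ →ₗ[ℝ] (CP n → ℝ) where
  toFun C x := gC C x.rep
  map_add' C D := funext fun x => gC_add C D x.rep
  map_smul' c C := funext fun x => by
    have h := gC_smul c C x.rep
    rw [Pi.smul_apply, smul_eq_mul, RingHom.id_apply, ← h]
    rfl

def GG0 (n : ℕ) : Submodule ℝ (CP n → ℝ) := LinearMap.range (gl n)

instance : FiniteDimensional ℝ (GG0 n) := by
  unfold GG0
  infer_instance

theorem mem_GG0 (C : Matrix (Fin (n + 1)) (Fin (n + 1)) ℂ) :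
    (fun x : CP n => gC C x.rep) ∈ GG0 n := ⟨C, rfl⟩

theorem exists_herm {u : CP n → ℝ} (hu : u ∈ GG0 n) :
    ∃ C : Matrix (Fin (n + 1)) (Fin (n + 1)) ℂ, C.IsHermitian ∧ u = fun x => gC C x.rep := by
  obtain ⟨C, rfl⟩ := hu
  refine ⟨((1 / 2 : ℝ) : ℂ) • (C + C.conjTranspose), ?_, ?_⟩
  · unfold Matrix.IsHermitian
    rw [Matrix.conjTranspose_smul, Matrix.conjTranspose_add, Matrix.conjTranspose_conjTranspose,
      add_comm C.conjTranspose C]
    congr 1
    exact Complex.conj_ofReal _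
  · funext x
    rw [gC_smul, gC_add, gC_conjTranspose]
    show gC C x.rep = _
    ring

theorem GG0_S {u : CP n → ℝ} (hu : u ∈ GG0 n) : u ∈ SS n := by
  obtain ⟨C, rfl⟩ := hu
  exact SH_lft_rep (SH_gC C)

theorem one_mem : (fun _ => (1 : ℝ)) ∈ GG0 n := by
  have h := mem_GG0 (n := n) 1
  have e : (fun x : CP n => gC (1 : Matrix (Fin (n + 1)) (Fin (n + 1)) ℂ) x.rep)
      = fun _ => (1 : ℝ) := funext fun x => gC_one x.rep_ne
  rwa [e] at h

theorem LL_mem {u : CP n → ℝ} (hu : u ∈ GG0 n) : LL u ∈ GG0 n := by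
  obtain ⟨C, rfl⟩ := hu
  have e : LL (gl n C) = (C.trace.re / ((n + 1 : ℕ) : ℝ)) • (fun _ => (1 : ℝ)) - gl n C := by
    funext x
    show LH (lft fun x => gC C x.rep) x.rep = _
    rw [LH_congr (fun z hz => lft_rep (SH_gC C) hz) x.rep_ne, LH_gC C x.rep_ne]
    show _ = C.trace.re / ((n + 1 : ℕ) : ℝ) * 1 - gC C x.rep
    rw [mul_one]
  rw [e]
  exact sub_mem (Submodule.smul_mem _ _ one_mem) ⟨C, rfl⟩

theorem GG_mem {u v : CP n → ℝ} (hu : u ∈ GG0 n) (hv : v ∈ GG0 n) : GG u v ∈ GG0 n * GG0 n := by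
  obtain ⟨C, hC, rfl⟩ := exists_herm hu
  obtain ⟨D, hD, rfl⟩ := exists_herm hv
  have e : GG (fun x : CP n => gC C x.rep) (fun x => gC D x.rep)
      = (((n + 1 : ℕ) : ℝ))⁻¹ • ((1 / 2 : ℝ) • ((fun x : CP n => gC (C * D + D * C) x.rep)
          * (fun _ => (1 : ℝ)))
        - (fun x : CP n => gC C x.rep) * (fun x => gC D x.rep)) := by
    funext x
    show GH (lft fun x => gC C x.rep) (lft fun x => gC D x.rep) x.rep = _
    rw [GH_congr (fun z hz => lft_rep (SH_gC C) hz) (fun z hz => lft_rep (SH_gC D) hz) x.rep_ne,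
      GH_gC hC hD x.rep_ne]
    show _ = (((n + 1 : ℕ) : ℝ))⁻¹ * (1 / 2 * (gC (C * D + D * C) x.rep * 1)
      - gC C x.rep * gC D x.rep)
    ring
  rw [e]
  exact Submodule.smul_mem _ _ (sub_mem (Submodule.smul_mem _ _
    (Submodule.mul_mem_mul (mem_GG0 _) one_mem)) (Submodule.mul_mem_mul hu hv))

theorem sep (x y : CP n) (hxy : x ≠ y) : ∃ u ∈ GG0 n, u x ≠ u y := by
  obtain ⟨C, -, hC⟩ := gC_sep x.rep_ne y.rep_ne (fun c hc h => hxy (by
    rw [← CP.mk_rep x, ← CP.mk_rep y, CP.mk_eq_iff]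
    exact ⟨c, hc, h⟩))
  exact ⟨_, mem_GG0 C, hC⟩

instance : IsFiniteMeasure (dvFS n) := ⟨by rw [dvFS_univ]; exact ENNReal.ofReal_lt_top⟩

instance : IsProbabilityMeasure (sg n) := ⟨by
  unfold sg
  rw [Measure.smul_apply, dvFS_univ, smul_eq_mul, ← ENNReal.ofReal_mul (inv_nonneg.2 (V_pos n).le)]
  have h : (V n)⁻¹ * (Real.pi ^ n / n.factorial) = 1 := inv_mul_cancel₀ (V_pos n).ne'
  rw [h, ENNReal.ofReal_one]⟩

instance : (sg n).IsOpenPosMeasure := by
  have h := isOpenPosMeasure_of_isDens (isPos_wFS (n := n)).toIsWeight isDens_dvFS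
  constructor
  intro U hU hne
  unfold sg
  rw [Measure.smul_apply, smul_eq_mul]
  refine mul_ne_zero ?_ (h.open_pos U hU hne)
  exact (ENNReal.ofReal_pos.2 (inv_pos.2 (V_pos n))).ne'

theorem lsi (hn : 0 < n) {g : CP n → ℝ} (hg : g ∈ SS n) (h0 : ∀ x, 0 < g x)
    (hint : ∫ x, g x ^ 2 ∂(sg n) = 1) :
    ∫ x, g x ^ 2 * Real.log (g x ^ 2) ∂(sg n) ≤
      n * Real.log (1 + 4 * (∫ x, GG g g x ∂(sg n)) / n) :=
  (diff hn).lsi_pos (by exact_mod_cast hn) (fun _ => GG0_S) one_mem (fun _ => LL_mem)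
    (fun _ hu _ hv => GG_mem hu hv) sep hg h0 hint

/-- the elementary inequality at the end -/
theorem num {n : ℕ} (hn : 0 < n) {X τ : ℝ} (hX : 0 < X) (hτ : 0 < τ) :
    cval n ≤ -(2 * n : ℝ) - n * Real.log (4 * Real.pi * τ) + (4 * τ * X
      - (n * Real.log (X / (n * (n + 1))) - Real.log (V n))) := by
  have hn' : (0 : ℝ) < n := by exact_mod_cast hn
  have hpi := Real.pi_pos
  have hfac : (0 : ℝ) < n.factorial := by exact_mod_cast n.factorial_pos
  have h1 : Real.log (V n) = n * Real.log Real.pi - Real.log n.factorial := by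
    unfold V
    rw [Real.log_div (by positivity) hfac.ne', Real.log_pow]
  have h2 : Real.log (4 * Real.pi * τ) = Real.log 4 + Real.log Real.pi + Real.log τ := by
    rw [Real.log_mul (by positivity) hτ.ne', Real.log_mul (by norm_num) hpi.ne']
  have h3 : Real.log (X / (n * (n + 1))) = Real.log X - Real.log n - Real.log (n + 1) := by
    rw [Real.log_div hX.ne' (by positivity), Real.log_mul hn'.ne' (by positivity)]
    ring
  have h4 : Real.log (4 * τ * X / n) = Real.log 4 + Real.log τ + Real.log X - Real.log n := by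
    rw [Real.log_div (by positivity) hn'.ne', Real.log_mul (by positivity) hX.ne',
      Real.log_mul (by norm_num) hτ.ne']
  have h5 := Real.log_le_sub_one_of_pos (x := 4 * τ * X / n) (by positivity)
  rw [h4] at h5
  have h6 := mul_le_mul_of_nonneg_left h5 hn'.le
  have h7 : (n : ℝ) * (4 * τ * X / n - 1) = 4 * τ * X - n := by
    field_simp
  rw [h7] at h6
  unfold cval
  rw [h1, h2, h3]
  linarith

end P15

open P15

/-- `ν(ℂP^n, g_FS) ≥ n log (n+1) - log n! - n` -/
theorem nuFS_ge (n : ℕ) (hn : 0 < n) : (cval n : EReal) ≤ nu (hFS n) (dvFS n) := by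
  have hn' : (0 : ℝ) < n := by exact_mod_cast hn
  have hV := V_pos n
  unfold nu
  refine le_iInf fun u => le_iInf fun D => le_iInf fun τ => le_iInf fun h => ?_
  obtain ⟨hτ, ⟨hu2, f, hf, hlim, -, hD⟩, hu0, hint⟩ := h
  rw [EReal.coe_le_coe_iff]
  -- normalisation
  have hfS : ∀ i, f i ∈ SS n := fun i => (sm_iff (f i)).1 (hf i)
  have hD' : Diff (sg n) (SS n) LL GG (n : ℝ) := diff hn
  set c : ℝ := √(V n) with hc
  have hc2 : c ^ 2 = V n := Real.sq_sqrt hV.le
  have hcpos : 0 < c := Real.sqrt_pos.2 hV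
  have hintG : ∀ i, ∫ x, GG (c • f i) (c • f i) x ∂(sg n)
      = (∫ x, grad2 (hFS n) (f i) x ∂(dvFS n)) / (4 * (n + 1)) := by
    intro i
    rw [integral_sg]
    have e1 : ∀ x, GG (c • f i) (c • f i) x = V n / (4 * (n + 1)) * grad2 (hFS n) (f i) x := by
      intro x
      rw [hD'.Gsmul (hfS i) (hD'.smul (hfS i) c), hD'.Gsmul_right (hfS i) (hfS i),
        grad2_eq (hfS i), ← hc2]
      field_simp
    simp only [e1]
    rw [integral_const_mul]
    field_simp
  have hlim' : Tendsto (fun i => ∫ x, ((c • f i) x - (c • u) x) ^ 2 ∂(sg n)) atTop (𝓝 0) := by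
    have e1 : ∀ i, ∫ x, ((c • f i) x - (c • u) x) ^ 2 ∂(sg n)
        = ∫ x, (f i x - u x) ^ 2 ∂(dvFS n) := by
      intro i
      rw [integral_sg]
      have e2 : ∀ x, ((c • f i) x - (c • u) x) ^ 2 = V n * (f i x - u x) ^ 2 := by
        intro x
        rw [Pi.smul_apply, Pi.smul_apply, smul_eq_mul, smul_eq_mul, ← mul_sub, mul_pow, hc2]
      simp only [e2]
      rw [integral_const_mul, ← mul_assoc, inv_mul_cancel₀ hV.ne', one_mul]
    simp only [e1]
    exact hlim
  have hDlim : Tendsto (fun i => ∫ x, GG (c • f i) (c • f i) x ∂(sg n)) atTop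
      (𝓝 (D / (4 * (n + 1)))) := by
    simp only [hintG]
    exact hD.div_const _
  have hmem : MemLp (c • u) 2 (sg n) := by
    refine (hu2.const_smul c).smul_measure ENNReal.ofReal_ne_top
  have hint' : ∫ x, (c • u) x ^ 2 ∂(sg n) = 1 := by
    rw [integral_sg]
    have e2 : ∀ x, (c • u) x ^ 2 = V n * u x ^ 2 := by
      intro x
      rw [Pi.smul_apply, smul_eq_mul, mul_pow, hc2]
    simp only [e2]
    rw [integral_const_mul, hint, mul_one, inv_mul_cancel₀ hV.ne']
  obtain ⟨hI, hle⟩ := hD'.lsi_lim hn' (fun g hg h0 h1 => lsi hn hg h0 h1)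
    (fun x => by
      rw [Pi.smul_apply, smul_eq_mul]
      exact mul_nonneg hcpos.le (hu0 x)) hmem hint' (fun i => hD'.smul (hfS i) c) hlim' hDlim
  have hsq : Integrable (fun x => u x ^ 2) (dvFS n) := hu2.integrable_sq
  -- the entropy
  have e3 : ∀ x, 2 * (c • u) x ^ 2 * Real.log ((c • u) x)
      = V n * (2 * u x ^ 2 * Real.log (u x) + Real.log (V n) * u x ^ 2) := by
    intro x
    rw [Pi.smul_apply, smul_eq_mul, mul_pow, hc2]
    rcases (hu0 x).eq_or_lt with h0 | h0
    · rw [← h0]; simp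
    · rw [Real.log_mul hcpos.ne' h0.ne', hc, Real.log_sqrt hV.le]
      ring
  have hI2 : Integrable (fun x => 2 * u x ^ 2 * Real.log (u x)) (dvFS n) := by
    have h1 : Integrable (fun x => 2 * (c • u) x ^ 2 * Real.log ((c • u) x)) (dvFS n) := by
      have h2 := hI
      unfold sg at h2
      rwa [integrable_smul_measure (ENNReal.ofReal_pos.2 (inv_pos.2 hV)).ne'
        ENNReal.ofReal_ne_top] at h2
    simp only [e3] at h1
    have h2 := (h1.const_mul (V n)⁻¹).sub (hsq.const_mul (Real.log (V n)))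
    refine h2.congr (Eventually.of_forall fun x => ?_)
    show (V n)⁻¹ * (V n * (2 * u x ^ 2 * Real.log (u x) + Real.log (V n) * u x ^ 2))
      - Real.log (V n) * u x ^ 2 = _
    rw [← mul_assoc, inv_mul_cancel₀ hV.ne']
    ring
  rw [integral_sg] at hle
  simp only [e3] at hle
  rw [integral_const_mul, ← mul_assoc, inv_mul_cancel₀ hV.ne', one_mul,
    integral_add hI2 (hsq.const_mul _), integral_const_mul, hint, mul_one] at hle
  -- the functional
  have hD0 : 0 ≤ D := by
    refine ge_of_tendsto hD (Eventually.of_forall fun i => integral_nonneg fun x => ?_)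
    rw [grad2_eq (hfS i)]
    exact mul_nonneg (by positivity) (hD'.Gnonneg _ (hfS i) x)
  have hX : 0 < (n : ℝ) * (n + 1) + D := by positivity
  have h8 := num hn hX hτ
  have e4 : 1 + 4 * (D / (4 * ((n : ℝ) + 1))) / n = (n * (n + 1) + D) / (n * (n + 1)) := by
    field_simp
  rw [e4] at hle
  unfold W12
  simp only [scal_hFS]
  rw [integral_const_mul, hint, mul_one]
  refine h8.trans ?_
  have e5 : τ * (4 * (n : ℝ) * (n + 1) + 4 * D) = 4 * τ * (n * (n + 1) + D) := by ring
  rw [e5]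
  linarith

end Pool.Agent.helper31.NU
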